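import Pool.Agent.R509.HL.Gen
import Pool.Agent.R509.HK.Lam

/-!
Library R509.HL (helper509): the bound for all frequencies, in two cases.
-/

set_option autoImplicit false

namespace Pool.Agent.R509.HL

open Finset
open Pool.Agent.R509.CD
open Pool.Agent.R509.HK (shift_avg_E block_small block_big)

/-- the bound for all frequencies, with the two cases separated -/
theorem sup_cases (ε : ℝ) (hε : 0 < ε) : ∃ r₀ : ℕ, 1 ≤ r₀ ∧ ∀ L : ℕ, 1 ≤ L → ∃ K₀ : ℕ, ∀ K : ℕ, K₀ ≤ K →
    ∀ g : ℕ → ℝ, (∀ n, |g n| ≤ 1) → ∀ (y : ℕ) (θ : ℝ),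
      ‖∑ k ∈ range K, (g (y + k) : ℂ) * E (k * θ)‖ ≤ (2 / Real.pi + ε) * K ∨ ∃ r ∈ Icc 1 r₀,
      ‖∑ k ∈ range K, (g (y + k) : ℂ) * E (k * θ)‖ ≤ ε * K + ∑ k ∈ range (K + r₀), |∑ j ∈ range L, g (y + k + r * j)| / L := by
  have hpi := Real.pi_pos
  obtain ⟨r₀, hr₀⟩ := exists_nat_ge (8 * Real.pi / ε + 1)
  have hr₀0 : (1 : ℝ) ≤ r₀ := by
    have : 0 < 8 * Real.pi / ε := by positivity
    linarith
  have hr₀1 : 1 ≤ r₀ := by exact_mod_cast hr₀0
  refine ⟨r₀, hr₀1, fun L hL => ?_⟩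
  have hL0 : (0 : ℝ) < L := by exact_mod_cast hL
  have hL1 : (1 : ℝ) ≤ L := by exact_mod_cast hL
  obtain ⟨Q, hQ⟩ := exists_nat_ge (8 * Real.pi * L / ε + r₀ + 1)
  have hQ1 : (1 : ℝ) ≤ Q := by
    have : 0 < 8 * Real.pi * L / ε := by positivity
    linarith
  have hQ0 : (0 : ℝ) < Q := by linarith
  have hQn : 1 ≤ Q := by exact_mod_cast hQ1
  have hQε : 8 * Real.pi * L ≤ ε * Q := by
    have h1 : 8 * Real.pi * L / ε ≤ Q := by linarith
    rw [div_le_iff₀ hε] at h1
    linarith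
  have hrε : 8 * Real.pi ≤ ε * r₀ := by
    have h1 : 8 * Real.pi / ε ≤ r₀ := by linarith
    rw [div_le_iff₀ hε] at h1
    linarith
  obtain ⟨K₀, hK₀⟩ := exists_nat_ge (8 * ((Q : ℝ) + L * r₀) / ε)
  refine ⟨K₀, fun K hK g hg y θ => ?_⟩
  have hKε : 8 * ((Q : ℝ) + L * r₀) ≤ ε * K := by
    have h1 : 8 * ((Q : ℝ) + L * r₀) / ε ≤ K := hK₀.trans (by exact_mod_cast hK)
    rw [div_le_iff₀ hε] at h1
    linarith
  obtain ⟨q, hq1, hq2⟩ := Real.exists_rat_abs_sub_le_and_den_le θ (n := Q) hQn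
  set r : ℕ := q.den with hr
  have hrpos : 1 ≤ r := q.den_pos
  have hr0 : (0 : ℝ) < r := by exact_mod_cast hrpos
  haveI : NeZero r := ⟨by omega⟩
  set a : ℤ := q.num with ha
  have hqa : (q : ℝ) = (a : ℝ) / r := by
    rw [ha, hr]
    exact_mod_cast (Rat.num_div_den q).symm
  have hcop : IsCoprime (r : ℤ) a := by
    rw [ha, hr]
    exact (Int.isCoprime_iff_gcd_eq_one.2 (by
      have := q.reduced
      rw [Int.gcd_comm]
      exact this))
  have hθ : |θ - a / r| ≤ 1 / (Q * r) := by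
    rw [← hqa]
    refine hq1.trans ?_
    apply one_div_le_one_div_of_le (by positivity)
    have : (Q : ℝ) * r ≤ (Q + 1) * r := mul_le_mul_of_nonneg_right (by linarith) hr0.le
    exact this
  set g' : ℕ → ℝ := fun k => g (y + k) with hg'
  have hg'b : ∀ n, |g' n| ≤ 1 := fun n => hg _
  change ‖∑ k ∈ range K, (g' k : ℂ) * E (k * θ)‖ ≤ _ ∨ ∃ r ∈ Icc 1 r₀, ‖∑ k ∈ range K, (g' k : ℂ) * E (k * θ)‖ ≤ _
  have hK0 : (0 : ℝ) ≤ K := Nat.cast_nonneg K
  by_cases hcase : r ≤ r₀
  · -- small denominators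
    right
    refine ⟨r, mem_Icc.2 ⟨hrpos, hcase⟩, ?_⟩
    have h1 := shift_avg_E g' hg'b K (L * r) θ
    have h2 : ∀ k ∈ range K, ‖∑ i ∈ range (L * r), (g' (k + i) : ℂ) * E (i * θ)‖ ≤
        ∑ c ∈ range r, |∑ j ∈ range L, g (y + (k + c) + r * j)| + L * r * (2 * Real.pi * L / Q) := by
      intro k _
      have h3 := block_small r hrpos a Q L hQn θ hθ (fun i => g' (k + i)) (fun n => hg'b _)
      refine h3.trans (le_of_eq ?_)
      congr 1
      apply sum_congr rfl
      intro c _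
      congr 1
      apply sum_congr rfl
      intro j _
      rw [hg']
      simp only
      congr 1
      ring
    have h3 : ∑ k ∈ range K, ∑ c ∈ range r, |∑ j ∈ range L, g (y + (k + c) + r * j)| ≤
        r * ∑ k ∈ range (K + r₀), |∑ j ∈ range L, g (y + k + r * j)| := by
      rw [sum_comm]
      have h4 : ∀ c ∈ range r, ∑ k ∈ range K, |∑ j ∈ range L, g (y + (k + c) + r * j)| ≤
          ∑ k ∈ range (K + r₀), |∑ j ∈ range L, g (y + k + r * j)| := by
        intro c hc
        rw [mem_range] at hc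
        have h5 : ∑ k ∈ range K, |∑ j ∈ range L, g (y + (k + c) + r * j)| =
            ∑ k ∈ (range K).image (fun k => k + c), |∑ j ∈ range L, g (y + k + r * j)| := by
          rw [sum_image (fun a _ b _ h => by simpa using h)]
        rw [h5]
        apply sum_le_sum_of_subset_of_nonneg
        · intro k hk
          rw [mem_image] at hk
          obtain ⟨k', hk', rfl⟩ := hk
          rw [mem_range] at hk' ⊢
          omega
        · intros; positivity
      refine (sum_le_sum h4).trans (le_of_eq ?_)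
      rw [sum_const, card_range, nsmul_eq_mul]
    have h4 : ∑ k ∈ range (K + r₀), |∑ j ∈ range L, g (y + k + r * j)| =
        L * ∑ k ∈ range (K + r₀), |∑ j ∈ range L, g (y + k + r * j)| / L := by
      rw [mul_sum]
      apply sum_congr rfl
      intro k _
      field_simp
    have h5 := sum_le_sum h2
    rw [sum_add_distrib, sum_const, card_range, nsmul_eq_mul] at h5
    set G : ℝ := ∑ k ∈ range (K + r₀), |∑ j ∈ range L, g (y + k + r * j)| / L with hG
    set S : ℝ := ‖∑ k ∈ range K, (g' k : ℂ) * E (k * θ)‖ with hS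
    push_cast at h1
    have h6 : (L : ℝ) * r * S ≤ L * r * G + K * (L * r * (2 * Real.pi * L / Q)) + 2 * ((L : ℝ) * r) ^ 2 := by
      have h7 := congrArg (fun z => (r : ℝ) * z) h4
      beta_reduce at h7
      linarith
    have h7 : S ≤ G + K * (2 * Real.pi * L / Q) + 2 * (L * r) := by
      have h8 : (L : ℝ) * r * S ≤ L * r * (G + K * (2 * Real.pi * L / Q) + 2 * (L * r)) := by linarith
      exact le_of_mul_le_mul_left h8 (by positivity)
    have h8 : (K : ℝ) * (2 * Real.pi * L / Q) ≤ ε / 4 * K := by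
      have h9 : 2 * Real.pi * L / Q ≤ ε / 4 := by
        rw [div_le_iff₀ hQ0]
        linarith
      have := mul_le_mul_of_nonneg_left h9 hK0
      linarith
    have h9 : 2 * ((L : ℝ) * r) ≤ ε / 4 * K := by
      have h10 : (r : ℝ) ≤ r₀ := by exact_mod_cast hcase
      have h11 := mul_le_mul_of_nonneg_left h10 hL0.le
      linarith
    have h11 : 0 ≤ ε * K := by positivity
    linarith
  · -- large denominators
    left
    rw [not_le] at hcase
    have h1 := shift_avg_E g' hg'b K r θ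
    have h2 : ∀ k ∈ range K, ‖∑ i ∈ range r, (g' (k + i) : ℂ) * E (i * θ)‖ ≤ 2 / Real.pi * r + 2 * Real.pi + 2 * Real.pi * r / Q :=
      fun k _ => block_big r a hcop Q hQn θ hθ (fun i => g' (k + i)) (fun n => hg'b _)
    have h3 := sum_le_sum h2
    rw [sum_const, card_range, nsmul_eq_mul] at h3
    set S : ℝ := ‖∑ k ∈ range K, (g' k : ℂ) * E (k * θ)‖ with hS
    have hr1 : (r₀ : ℝ) ≤ r := by exact_mod_cast hcase.le
    have h4 : 2 * Real.pi ≤ ε / 4 * r := by
      have := mul_le_mul_of_nonneg_left hr1 hε.le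
      linarith
    have h5 : 2 * Real.pi * r / Q ≤ ε / 4 * r := by
      rw [div_le_iff₀ hQ0]
      have h6 : 8 * Real.pi ≤ ε * Q := by
        have : 8 * Real.pi * 1 ≤ 8 * Real.pi * L := mul_le_mul_of_nonneg_left hL1 (by positivity)
        linarith
      have := mul_le_mul_of_nonneg_left h6 hr0.le
      linarith
    have h6 : (r : ℝ) * S ≤ K * ((2 / Real.pi + ε / 2) * r) + 2 * (r : ℝ) ^ 2 := by
      have h7 : (K : ℝ) * (2 / Real.pi * r + 2 * Real.pi + 2 * Real.pi * r / Q) ≤ K * ((2 / Real.pi + ε / 2) * r) := by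
        apply mul_le_mul_of_nonneg_left _ hK0
        linarith
      linarith
    have h7 : S ≤ K * (2 / Real.pi + ε / 2) + 2 * r := by
      have h8 : (r : ℝ) * S ≤ r * (K * (2 / Real.pi + ε / 2) + 2 * r) := by linarith
      exact le_of_mul_le_mul_left h8 hr0
    have h8 : 2 * (r : ℝ) ≤ ε / 2 * K := by
      have h9 : (r : ℝ) ≤ Q := by exact_mod_cast hq2
      have h10 : 0 ≤ (L : ℝ) * r₀ := by positivity
      linarith
    linarith

end Pool.Agent.R509.HL
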