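import Pool.Agent.R509.HM.Main

/-!
Library R509.HL (helper509): the norms of the Hankel matrices in short windows, with a general
error term.
-/

set_option autoImplicit false

namespace Pool.Agent.R509.HL

open Finset
open Pool.Agent.R509.CD
open Pool.Agent.R509.HK hiding op_bound hankel hankel_ae
open Pool.Agent.R509.HM (op_bound)

/-- the energy of a window read cyclically -/
lemma energy_winG (a₀ : ℝ) (h0 : 0 ≤ a₀) (h1 : a₀ ≤ 1) (K r₀ : ℕ) (G : ℕ → ℝ) (hG : ∀ n, 0 ≤ G n) (hK : 1 ≤ K) (g : ℕ → ℝ) (hg : ∀ n, |g n| ≤ 1)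
    (hs : ∀ (y : ℕ) (θ : ℝ), ‖∑ k ∈ range K, (g (y + k) : ℂ) * E (k * θ)‖ ≤ a₀ * K + ∑ k ∈ range (K + r₀), G (y + k))
    (P : ℕ) [NeZero P] (x : ℕ) :
    EnergyLe (fun y : ZMod P => g (x + y.val)) K
      (a₀ ^ 2 + 2 / (K * P) * ∑ v ∈ range P, ∑ k ∈ range (K + r₀), G (x + v + k) + K / P) := by
  intro ξ
  have hK0 : (0 : ℝ) < K := by exact_mod_cast hK
  have hP0 : (0 : ℝ) < P := by exact_mod_cast Nat.pos_of_ne_zero (NeZero.ne P)
  rw [← sum_zmod P (fun y => ‖∑ k ∈ range K, ch P (-((k : ZMod P) * ξ)) * ((g (x + (y + (k : ZMod P)).val) : ℝ) : ℂ)‖ ^ 2)]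
  have h2 : ∀ v ∈ range P, ‖∑ k ∈ range K, ch P (-((k : ZMod P) * ξ)) * ((g (x + ((v : ZMod P) + (k : ZMod P)).val) : ℝ) : ℂ)‖ ^ 2 ≤
      a₀ ^ 2 * K ^ 2 + 2 * K * ∑ k ∈ range (K + r₀), G (x + v + k) + (if P < v + K then (K : ℝ) ^ 2 else 0) := by
    intro v _
    set S : ℝ := ‖∑ k ∈ range K, ch P (-((k : ZMod P) * ξ)) * ((g (x + ((v : ZMod P) + (k : ZMod P)).val) : ℝ) : ℂ)‖ with hS
    have hS0 : 0 ≤ S := norm_nonneg _
    have hSK : S ≤ K := by
      refine (norm_sum_le _ _).trans ?_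
      have h3 : ∀ k ∈ range K, ‖ch P (-((k : ZMod P) * ξ)) * ((g (x + ((v : ZMod P) + (k : ZMod P)).val) : ℝ) : ℂ)‖ ≤ 1 := by
        intro k _
        rw [norm_mul, ch_norm, one_mul, Complex.norm_real]
        exact hg _
      refine (sum_le_sum h3).trans (le_of_eq ?_)
      simp
    have hG0 : 0 ≤ ∑ k ∈ range (K + r₀), G (x + v + k) := sum_nonneg fun _ _ => hG _
    split_ifs with hv
    · have h3 : S ^ 2 ≤ (K : ℝ) ^ 2 := pow_le_pow_left₀ hS0 hSK 2
      have h4 : 0 ≤ a₀ ^ 2 * (K : ℝ) ^ 2 := by positivity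
      have h5 : 0 ≤ 2 * (K : ℝ) * ∑ k ∈ range (K + r₀), G (x + v + k) := by positivity
      linarith
    · have h3 : S ≤ a₀ * K + ∑ k ∈ range (K + r₀), G (x + v + k) := by
        have h4 := hs (x + v) (-(ξ.val : ℝ) / P)
        refine le_trans (le_of_eq ?_) h4
        rw [hS]
        congr 1
        apply sum_congr rfl
        intro k hk
        rw [mem_range] at hk
        rw [ch_cast, val_add P v k (by omega), mul_comm, add_assoc]
      rw [add_zero]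
      rcases le_or_gt S (a₀ * K) with h4 | h4
      · have h5 : S ^ 2 ≤ (a₀ * K) ^ 2 := pow_le_pow_left₀ hS0 h4 2
        have h6 : 0 ≤ 2 * (K : ℝ) * ∑ k ∈ range (K + r₀), G (x + v + k) := by positivity
        rw [mul_pow] at h5
        linarith
      · set u := ∑ k ∈ range (K + r₀), G (x + v + k)
        have h5 : S ^ 2 - (a₀ * K) ^ 2 = (S - a₀ * K) * (S + a₀ * K) := by ring
        have h6 : (S - a₀ * K) * (S + a₀ * K) ≤ u * (2 * K) := by
          apply mul_le_mul (by linarith) _ (by positivity) hG0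
          have : a₀ * K ≤ 1 * K := mul_le_mul_of_nonneg_right h1 hK0.le
          linarith
        have h7 : (a₀ * K) ^ 2 = a₀ ^ 2 * K ^ 2 := by ring
        linarith
  have h3 := sum_le_sum h2
  rw [sum_add_distrib, sum_add_distrib, sum_const, card_range, nsmul_eq_mul, ← mul_sum] at h3
  have h4 : ∑ v ∈ range P, (if P < v + K then (K : ℝ) ^ 2 else 0) ≤ K * K ^ 2 := by
    rw [← sum_filter, sum_const, nsmul_eq_mul]
    apply mul_le_mul_of_nonneg_right _ (by positivity)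
    have h5 : (range P).filter (fun v => P < v + K) ⊆ Ico (P - K) P := by
      intro v hv
      rw [mem_filter, mem_range] at hv
      rw [mem_Ico]
      omega
    have h6 := card_le_card h5
    rw [Nat.card_Ico] at h6
    exact_mod_cast (by omega : #((range P).filter (fun v => P < v + K)) ≤ K)
  rw [div_le_iff₀ hP0]
  have h5 : (a₀ ^ 2 + 2 / (K * P) * ∑ v ∈ range P, ∑ k ∈ range (K + r₀), G (x + v + k) + K / P) * (K : ℝ) ^ 2 * P =
      P * (a₀ ^ 2 * K ^ 2) + 2 * K * ∑ v ∈ range P, ∑ k ∈ range (K + r₀), G (x + v + k) + K * K ^ 2 := by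
    field_simp
  rw [h5]
  linarith

/-- the Fourier sums of short windows are at most `A` on average -/
def SupG (g : ℕ → ℝ) (A : ℝ) : Prop := ∀ κ : ℝ, 0 < κ → ∃ G : ℕ → ℝ, (∀ n, 0 ≤ G n) ∧
  (∃ X₀ : ℕ, ∀ X : ℕ, X₀ ≤ X → ∑ n ∈ range X, G n ≤ κ * X) ∧ ∃ r₁ K₀ : ℕ, ∀ K : ℕ, K₀ ≤ K →
  ∀ (y : ℕ) (θ : ℝ), ‖∑ k ∈ range K, (g (y + k) : ℂ) * E (k * θ)‖ ≤ (A + κ) * K + ∑ k ∈ range (K + r₁), G (y + k)

/-- **Hankel matrices in short windows** -/
theorem hankelG (g : ℕ → ℝ) (hgab : ∀ n, |g n| ≤ 1) (A : ℝ) (h2pi0 : 0 < A) (h2pi : A ≤ 2 / 3)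
    (hA : SupG g A) (ε : ℝ) (hε : 0 < ε) :
    ∃ C : ℕ, 1 ≤ C ∧ ∀ H X : ℕ, C ≤ H → C * H ≤ X → ∃ s : ℕ → ℝ, (∀ x, A ^ 2 * H ^ 2 ≤ s x) ∧
      (∑ x ∈ range X, s x ≤ (A ^ 2 + ε) * H ^ 2 * X) ∧
      ∀ x, ∀ v : ℕ → ℂ, ∑ b ∈ range H, ‖∑ a ∈ range H, v a * g (x + a + b)‖ ^ 2 ≤ s x * ∑ a ∈ range H, ‖v a‖ ^ 2 := by
  have hpi := Real.pi_pos
  have hpi3 := Real.pi_gt_three
  set κ : ℝ := min ε 1 / 100 with hκ
  have hm0 : 0 < min ε 1 := lt_min hε one_pos
  have hκ0 : 0 < κ := by positivity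
  have hκ1 : 100 * κ ≤ ε := by rw [hκ]; have := min_le_left ε 1; linarith
  have hκ2 : 100 * κ ≤ 1 := by rw [hκ]; have := min_le_right ε 1; linarith
  obtain ⟨G, hG0, ⟨X₀, hX₀⟩, r₀, K₀, hK₀⟩ := hA κ hκ0
  set K : ℕ := K₀ + r₀ + 1 with hK
  have hK1 : 1 ≤ K := by omega
  have hK0 : (0 : ℝ) < K := by exact_mod_cast hK1
  obtain ⟨M, hM1, hM⟩ := op_bound K hK1 κ hκ0
  have hM0 : (0 : ℝ) < M := by exact_mod_cast hM1
  set a₀ : ℝ := A + κ with ha₀
  have ha0 : 0 ≤ a₀ := by positivity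
  have ha1 : a₀ ≤ 1 := by rw [ha₀]; linarith
  obtain ⟨C1, hC1⟩ := exists_nat_ge ((K : ℝ) / κ)
  obtain ⟨C2, hC2⟩ := exists_nat_ge ((M : ℝ) / κ)
  refine ⟨C1 + C2 + K + r₀ + M + X₀ + 5, by omega, fun H X hH hX => ?_⟩
  set C := C1 + C2 + K + r₀ + M + X₀ + 5 with hC
  have hH0 : (0 : ℝ) < H := by exact_mod_cast (by omega : 0 < H)
  have hXH : 5 * H ≤ X := le_trans (Nat.mul_le_mul_right H (by omega)) hX
  have hXX₀ : X₀ ≤ X := by
    have : X₀ * 1 ≤ C * H := Nat.mul_le_mul (by omega) (by omega)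
    omega
  have hX0 : (0 : ℝ) < X := by exact_mod_cast (by omega : 0 < X)
  have hKH : (K : ℝ) ≤ κ * H := by
    rw [div_le_iff₀ hκ0] at hC1
    have h1 : (C1 : ℝ) ≤ H := by exact_mod_cast (by omega : C1 ≤ H)
    have := mul_le_mul_of_nonneg_right h1 hκ0.le
    linarith
  have hMH : (M : ℝ) ≤ κ * H := by
    rw [div_le_iff₀ hκ0] at hC2
    have h1 : (C2 : ℝ) ≤ H := by exact_mod_cast (by omega : C2 ≤ H)
    have := mul_le_mul_of_nonneg_right h1 hκ0.le
    linarith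
  obtain ⟨P, hP⟩ : ∃ P : ℕ, P = H + M := ⟨_, rfl⟩
  haveI : NeZero P := ⟨by omega⟩
  have hPr : (P : ℝ) = H + M := by rw [hP]; push_cast; ring
  have hP0 : (0 : ℝ) < P := by rw [hPr]; positivity
  set J : ℕ := H / M + 1 with hJ
  have hJ1 : H ≤ J * M := by
    have h1 := Nat.div_add_mod H M
    have h2 := Nat.mod_lt H (show 0 < M by omega)
    rw [hJ, add_mul, one_mul, mul_comm]
    omega
  have hJ2 : J * M ≤ H + M := by
    have h1 := Nat.div_mul_le_self H M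
    rw [hJ, add_mul, one_mul]
    omega
  have hJM : (J : ℝ) * M ≤ P := by rw [hPr]; exact_mod_cast hJ2
  set β : ℕ → ℝ := fun x => a₀ ^ 2 + 2 / (K * P) * ∑ w ∈ range P, ∑ k ∈ range (K + r₀), G (x + w + k) + K / P with hβ
  have hβ0 : ∀ x, 0 ≤ β x := by
    intro x
    have : 0 ≤ ∑ w ∈ range P, ∑ k ∈ range (K + r₀), G (x + w + k) := sum_nonneg fun _ _ => sum_nonneg fun _ _ => hG0 _
    rw [hβ]
    positivity
  refine ⟨fun x => ∑ j ∈ range J, P * (((1 + κ) * β (x + j * M) + κ) * M), ?_, ?_, ?_⟩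
  · intro x
    have h1 : ∀ j ∈ range J, (P : ℝ) * M * A ^ 2 ≤ P * (((1 + κ) * β (x + j * M) + κ) * M) := by
      intro j _
      have h2 : A ^ 2 ≤ β (x + j * M) := by
        have h3 : 0 ≤ ∑ w ∈ range P, ∑ k ∈ range (K + r₀), G (x + j * M + w + k) := sum_nonneg fun _ _ => sum_nonneg fun _ _ => hG0 _
        have h4 : 0 ≤ 2 / ((K : ℝ) * P) * ∑ w ∈ range P, ∑ k ∈ range (K + r₀), G (x + j * M + w + k) := by positivity
        have h5 : 0 ≤ (K : ℝ) / P := by positivity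
        have h6 : A ^ 2 ≤ a₀ ^ 2 := pow_le_pow_left₀ h2pi0.le (by rw [ha₀]; linarith) 2
        rw [hβ]
        simp only
        linarith
      have h3 : A ^ 2 ≤ (1 + κ) * β (x + j * M) + κ := by
        have h3' : 0 ≤ κ * β (x + j * M) := mul_nonneg hκ0.le (hβ0 _)
        linarith
      have h4 := mul_le_mul_of_nonneg_left h3 (show 0 ≤ (P : ℝ) * M by positivity)
      linarith
    have h2 := sum_le_sum h1
    rw [sum_const, card_range, nsmul_eq_mul] at h2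
    refine le_trans ?_ h2
    have h3 : (H : ℝ) ≤ J * M := by exact_mod_cast hJ1
    have h4 : (H : ℝ) ≤ P := by rw [hPr]; linarith
    have h5 : (H : ℝ) * H ≤ (J * M) * P := mul_le_mul h3 h4 hH0.le (by positivity)
    have h6 := mul_le_mul_of_nonneg_right h5 (show 0 ≤ A ^ 2 by positivity)
    linarith
  swap
  · intro x v
    exact all_blocks M H J g x hJ1 (fun j => P * (((1 + κ) * β (x + j * M) + κ) * M)) (fun j => by
      have := hβ0 (x + j * M)
      positivity) (by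
      intro j _ v'
      apply block_win M H P hP g (x + j * M)
      intro v''
      have h2 := energy_winG a₀ ha0 ha1 K r₀ G hG0 hK1 g hgab (fun y θ => hK₀ K (by omega) y θ) P (x + j * M)
      exact hM M le_rfl P (fun y : ZMod P => g (x + j * M + y.val)) (fun y => hgab _) (β (x + j * M)) (hβ0 _) h2 v'') v
  have hGs : ∀ s, s ≤ X → ∑ x ∈ range X, G (x + s) ≤ 2 * κ * X := by
    intro s hs
    refine (sum_shift_le _ hG0 X s hs).trans ((hX₀ (2 * X) (by omega)).trans (le_of_eq ?_))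
    push_cast; ring
  have hβs : ∀ j ∈ range J, ∑ x ∈ range X, β (x + j * M) ≤ (a₀ ^ 2 + 9 * κ) * X := by
    intro j hj
    rw [mem_range] at hj
    have hjM : j * M ≤ H + M := le_trans (Nat.mul_le_mul_right M (by omega)) hJ2
    rw [hβ]
    simp only
    rw [sum_add_distrib, sum_add_distrib, ← mul_sum, sum_const, sum_const, card_range, nsmul_eq_mul, nsmul_eq_mul]
    have h1 : ∑ x ∈ range X, ∑ w ∈ range P, ∑ k ∈ range (K + r₀), G (x + j * M + w + k) ≤ P * ((K + r₀ : ℕ) * (2 * κ * X)) := by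
      rw [sum_comm]
      have h2 : ∀ w ∈ range P, ∑ x ∈ range X, ∑ k ∈ range (K + r₀), G (x + j * M + w + k) ≤ (K + r₀ : ℕ) * (2 * κ * X) := by
        intro w hw
        rw [mem_range] at hw
        rw [sum_comm]
        have h3 : ∀ k ∈ range (K + r₀), ∑ x ∈ range X, G (x + j * M + w + k) ≤ 2 * κ * X := by
          intro k hk
          rw [mem_range] at hk
          have h4 := hGs (j * M + w + k) (by omega)
          refine le_trans (le_of_eq ?_) h4
          apply sum_congr rfl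
          intro x _
          congr 1
          ring
        refine (sum_le_sum h3).trans (le_of_eq ?_)
        rw [sum_const, card_range, nsmul_eq_mul]
      refine (sum_le_sum h2).trans (le_of_eq ?_)
      rw [sum_const, card_range, nsmul_eq_mul]
    have h2 : 2 / ((K : ℝ) * P) * ∑ x ∈ range X, ∑ w ∈ range P, ∑ k ∈ range (K + r₀), G (x + j * M + w + k) ≤ 8 * κ * X := by
      have h3 := mul_le_mul_of_nonneg_left h1 (show 0 ≤ 2 / ((K : ℝ) * P) by positivity)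
      refine h3.trans ?_
      have h4 : 2 / ((K : ℝ) * P) * (P * ((K + r₀ : ℕ) * (2 * κ * X))) = ((K + r₀ : ℕ) / K) * (4 * κ * X) := by
        field_simp
        ring
      rw [h4]
      have h5 : ((K + r₀ : ℕ) : ℝ) / K ≤ 2 := by
        rw [div_le_iff₀ hK0]
        exact_mod_cast (by omega : K + r₀ ≤ 2 * K)
      have := mul_le_mul_of_nonneg_right h5 (show 0 ≤ 4 * κ * X by positivity)
      linarith
    have h3 : (K : ℝ) / P ≤ κ := by
      rw [div_le_iff₀ hP0, hPr]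
      have : 0 ≤ κ * M := by positivity
      linarith
    have h4 := mul_le_mul_of_nonneg_left h3 hX0.le
    linarith
  rw [sum_comm]
  have h1 : ∀ j ∈ range J, ∑ x ∈ range X, P * (((1 + κ) * β (x + j * M) + κ) * M) ≤
      P * M * (((1 + κ) * (a₀ ^ 2 + 9 * κ) + κ) * X) := by
    intro j hj
    have h2 := hβs j hj
    have h3 : ∑ x ∈ range X, (P : ℝ) * (((1 + κ) * β (x + j * M) + κ) * M) = P * M * ((1 + κ) * ∑ x ∈ range X, β (x + j * M) + X * κ) := by
      rw [mul_sum, mul_add, mul_sum]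
      have : (P : ℝ) * M * (X * κ) = ∑ x ∈ range X, P * M * κ := by
        rw [sum_const, card_range, nsmul_eq_mul]; ring
      rw [this, ← sum_add_distrib]
      apply sum_congr rfl
      intro x _
      ring
    rw [h3]
    apply mul_le_mul_of_nonneg_left _ (by positivity)
    have h4 := mul_le_mul_of_nonneg_left h2 (show 0 ≤ 1 + κ by positivity)
    linarith
  have h2 : (∑ j ∈ range J, ∑ x ∈ range X, P * (((1 + κ) * β (x + j * M) + κ) * M)) ≤
      (J * (P * M * (((1 + κ) * (a₀ ^ 2 + 9 * κ) + κ) * X))) := by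
    refine (sum_le_sum h1).trans (le_of_eq ?_)
    rw [sum_const, card_range, nsmul_eq_mul]
  refine h2.trans ?_
  set B : ℝ := (1 + κ) * (a₀ ^ 2 + 9 * κ) + κ with hB
  have hB0 : 0 ≤ B := by positivity
  have h3 : (J : ℝ) * (P * M * (B * X)) ≤ (P * P) * (B * X) := by
    have h4 : (J : ℝ) * (P * M * (B * X)) = (J * M) * P * (B * X) := by ring
    rw [h4]
    apply mul_le_mul_of_nonneg_right _ (by positivity)
    exact mul_le_mul_of_nonneg_right hJM hP0.le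
  refine h3.trans ?_
  have h4 : (P : ℝ) * P ≤ (1 + 3 * κ) * H ^ 2 := by
    have h5 : (P : ℝ) ≤ (1 + κ) * H := by rw [hPr]; linarith
    have h6 : (P : ℝ) * P ≤ ((1 + κ) * H) * ((1 + κ) * H) := mul_le_mul h5 h5 hP0.le (by positivity)
    have h7 : ((1 + κ) * (H : ℝ)) * ((1 + κ) * H) = (1 + κ) ^ 2 * H ^ 2 := by ring
    rw [h7] at h6
    refine h6.trans ?_
    apply mul_le_mul_of_nonneg_right _ (by positivity)
    have hκκ : κ * κ ≤ 1 / 100 * κ := mul_le_mul_of_nonneg_right (by linarith) hκ0.le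
    have e : (1 + κ) ^ 2 = 1 + 2 * κ + κ * κ := by ring
    linarith
  have h5 := mul_le_mul_of_nonneg_right h4 (show 0 ≤ B * X by positivity)
  refine h5.trans ?_
  have h6 : (1 + 3 * κ) * B ≤ A ^ 2 + ε := by
    rw [hB, ha₀]
    set q : ℝ := A with hq
    have hq0 : 0 ≤ q := h2pi0.le
    have hq1 : q ≤ 2 / 3 := h2pi
    have hqq : q * q ≤ 2 / 3 * (2 / 3) := mul_le_mul hq1 hq1 hq0 (by norm_num)
    have hqκ : q * κ ≤ 2 / 3 * κ := mul_le_mul_of_nonneg_right hq1 hκ0.le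
    have hκκ : κ * κ ≤ 1 / 100 * κ := mul_le_mul_of_nonneg_right (by linarith) hκ0.le
    have hκq : κ * (q * q) ≤ κ * (2 / 3 * (2 / 3)) := mul_le_mul_of_nonneg_left hqq hκ0.le
    have h7 : (q + κ) ^ 2 ≤ q ^ 2 + 2 * κ := by
      have e : (q + κ) ^ 2 = q ^ 2 + 2 * (q * κ) + κ * κ := by ring
      linarith
    have h8 : (1 + κ) * ((q + κ) ^ 2 + 9 * κ) + κ ≤ q ^ 2 + 14 * κ := by
      have h9 : (1 + κ) * ((q + κ) ^ 2 + 9 * κ) ≤ (1 + κ) * (q ^ 2 + 2 * κ + 9 * κ) :=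
        mul_le_mul_of_nonneg_left (by linarith) (by positivity)
      have e : (1 + κ) * (q ^ 2 + 2 * κ + 9 * κ) = q ^ 2 + 11 * κ + κ * (q * q) + 11 * (κ * κ) := by ring
      linarith
    have h9 : (1 + 3 * κ) * ((1 + κ) * ((q + κ) ^ 2 + 9 * κ) + κ) ≤ (1 + 3 * κ) * (q ^ 2 + 14 * κ) :=
      mul_le_mul_of_nonneg_left h8 (by positivity)
    have e : (1 + 3 * κ) * (q ^ 2 + 14 * κ) = q ^ 2 + 14 * κ + 3 * (κ * (q * q)) + 42 * (κ * κ) := by ring
    linarith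
  have h7 := mul_le_mul_of_nonneg_right h6 (show 0 ≤ (H : ℝ) ^ 2 * X by positivity)
  calc (1 + 3 * κ) * (H : ℝ) ^ 2 * (B * X) = (1 + 3 * κ) * B * (H ^ 2 * X) := by ring
    _ ≤ _ := h7
    _ = _ := by ring

open Classical in
/-- for almost all windows -/
theorem hankelG_ae (g : ℕ → ℝ) (hgab : ∀ n, |g n| ≤ 1) (A : ℝ) (h2pi0 : 0 < A) (h2pi : A ≤ 2 / 3)
    (hA : SupG g A) (ε : ℝ) (hε : 0 < ε) :
    ∃ C : ℕ, 1 ≤ C ∧ ∀ H X : ℕ, C ≤ H → C * H ≤ X →
      (((range X).filter (fun x => ¬ ∀ v : ℕ → ℂ, ∑ b ∈ range H, ‖∑ a ∈ range H, v a * g (x + a + b)‖ ^ 2 ≤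
        (A ^ 2 + ε) * H ^ 2 * ∑ a ∈ range H, ‖v a‖ ^ 2)).card : ℝ) ≤ ε * X := by
  obtain ⟨C, hC1, hC⟩ := hankelG g hgab A h2pi0 h2pi hA (ε ^ 2) (by positivity)
  refine ⟨C, hC1, fun H X hH hX => ?_⟩
  obtain ⟨s, hs1, hs2, hs3⟩ := hC H X hH hX
  have hH0 : (0 : ℝ) < H := by exact_mod_cast (by omega : 0 < H)
  set B := (range X).filter (fun x => ¬ ∀ v : ℕ → ℂ, ∑ b ∈ range H, ‖∑ a ∈ range H, v a * g (x + a + b)‖ ^ 2 ≤
        (A ^ 2 + ε) * H ^ 2 * ∑ a ∈ range H, ‖v a‖ ^ 2) with hB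
  have h1 : ∀ x ∈ B, ε * H ^ 2 ≤ s x - A ^ 2 * H ^ 2 := by
    intro x hx
    rw [hB, mem_filter] at hx
    by_contra hcon
    apply hx.2
    intro v
    refine (hs3 x v).trans ?_
    apply mul_le_mul_of_nonneg_right _ (by positivity)
    push Not at hcon
    linarith
  have h2 : ∑ x ∈ B, ε * (H : ℝ) ^ 2 ≤ ∑ x ∈ range X, (s x - A ^ 2 * H ^ 2) := by
    refine (sum_le_sum h1).trans ?_
    apply sum_le_sum_of_subset_of_nonneg (filter_subset _ _)
    intro x _ _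
    have := hs1 x
    linarith
  rw [sum_const, nsmul_eq_mul, sum_sub_distrib, sum_const, card_range, nsmul_eq_mul] at h2
  have h3 : (B.card : ℝ) * (ε * H ^ 2) ≤ (ε * X) * (ε * H ^ 2) := by nlinarith
  exact le_of_mul_le_mul_right h3 (by positivity)

end Pool.Agent.R509.HL
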