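import Pool.Agent.R509.HL.Cases

/-!
Library R509.HL (helper509): the partial products of a sequence of signs, products of consecutive
values.
-/

set_option autoImplicit false

namespace Pool.Agent.R509.HL

open Finset
open Pool.Agent.R509.CD
open Pool.Agent.R509.HK (Gf MRP Gf_nonneg sum_Icc_range lq lq_pm mrp_lq)

/-- the partial products -/
noncomputable def PP (a : ℕ → ℝ) (n : ℕ) : ℝ := ∏ m ∈ range n, a m

lemma PP_pm (a : ℕ → ℝ) (ha : ∀ n, a n = 1 ∨ a n = -1) (n : ℕ) : PP a n = 1 ∨ PP a n = -1 := by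
  induction n with
  | zero => left; simp [PP]
  | succ n ih =>
    unfold PP at ih ⊢
    rw [prod_range_succ]
    rcases ih with h | h <;> rcases ha n with h' | h' <;> rw [h, h'] <;> norm_num

lemma PP_abs (a : ℕ → ℝ) (ha : ∀ n, a n = 1 ∨ a n = -1) (n : ℕ) : |PP a n| ≤ 1 := by
  rcases PP_pm a ha n with h | h <;> rw [h] <;> norm_num

lemma PP_sq (a : ℕ → ℝ) (ha : ∀ n, a n = 1 ∨ a n = -1) (n : ℕ) : PP a n * PP a n = 1 := by
  rcases PP_pm a ha n with h | h <;> rw [h] <;> norm_num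

lemma PP_add (a : ℕ → ℝ) (n k : ℕ) : PP a (n + k) = PP a n * ∏ i ∈ range k, a (n + i) := by
  unfold PP
  rw [prod_range_add]

lemma PP_mul (a : ℕ → ℝ) (ha : ∀ n, a n = 1 ∨ a n = -1) (n k : ℕ) : ∏ i ∈ range k, a (n + i) = PP a n * PP a (n + k) := by
  rw [PP_add, ← mul_assoc, PP_sq a ha, one_mul]

lemma PP_succ (a : ℕ → ℝ) (ha : ∀ n, a n = 1 ∨ a n = -1) (n : ℕ) : PP a n * PP a (n + 1) = a n := by
  have h := PP_mul a ha n 1
  rw [prod_range_one, add_zero] at h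
  exact h.symm

/-- two signs -/
lemma two_signs (L : ℕ) (u v : ℕ → ℝ) (hu : ∀ n, u n = 1 ∨ u n = -1) (hv : ∀ n, v n = 1 ∨ v n = -1) :
    |∑ j ∈ range L, u j| + |∑ j ∈ range L, v j| ≤ L + |∑ j ∈ range L, u j * v j| := by
  have h1 : ∀ s : ℝ, s = 1 ∨ s = -1 → |∑ j ∈ range L, u j + s * ∑ j ∈ range L, v j| ≤ L + |∑ j ∈ range L, u j * v j| := by
    intro s hs
    rw [mul_sum, ← sum_add_distrib]
    have h2 : ∀ j ∈ range L, |u j + s * v j| ≤ 1 + s * (u j * v j) := by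
      intro j _
      rcases hs with h | h <;> rcases hu j with h' | h' <;> rcases hv j with h'' | h'' <;> rw [h, h', h''] <;> norm_num
    refine (abs_sum_le_sum_abs _ _).trans ((sum_le_sum h2).trans ?_)
    rw [sum_add_distrib, sum_const, card_range, nsmul_eq_mul, mul_one, ← mul_sum]
    have h3 : s * ∑ j ∈ range L, u j * v j ≤ |∑ j ∈ range L, u j * v j| := by
      rcases hs with h | h <;> rw [h]
      · rw [one_mul]; exact le_abs_self _
      · rw [neg_one_mul]; exact neg_le_abs _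
    linarith
  have h2 := h1 1 (Or.inl rfl)
  have h3 := h1 (-1) (Or.inr rfl)
  rw [one_mul] at h2
  rw [neg_one_mul] at h3
  rw [abs_le] at h2 h3
  rcases abs_cases (∑ j ∈ range L, u j) with ⟨h4, _⟩ | ⟨h4, _⟩ <;>
    rcases abs_cases (∑ j ∈ range L, v j) with ⟨h5, _⟩ | ⟨h5, _⟩ <;> rw [h4, h5] <;> linarith [h2.1, h2.2, h3.1, h3.2]

/-- the Fourier sums of the partial products -/
lemma sup_PP (a : ℕ → ℝ) (ha : ∀ n, a n = 1 ∨ a n = -1) (hMR : MRP a) : SupG (PP a) (2 / Real.pi) := by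
  intro κ hκ
  have hpi := Real.pi_pos
  have hpi4 := Real.pi_lt_four
  obtain ⟨r₀, hr₀, hr⟩ := sup_cases (κ / 4) (by positivity)
  obtain ⟨L, hL, X₀, hX₀⟩ := hMR r₀ κ hκ
  obtain ⟨K₁, hK₁⟩ := hr L hL
  have hL0 : (0 : ℝ) < L := by exact_mod_cast hL
  obtain ⟨K₂, hK₂⟩ := exists_nat_ge (((r₀ : ℝ) + 1) / κ)
  refine ⟨Gf a r₀ L, fun n => Gf_nonneg _ _ _ _, ⟨X₀, fun X hX => hX₀ X hX⟩, r₀, K₁ + K₂, fun K hK y θ => ?_⟩
  have hK0 : (0 : ℝ) ≤ K := Nat.cast_nonneg K
  have hG0 : 0 ≤ ∑ k ∈ range (K + r₀), Gf a r₀ L (y + k) := sum_nonneg fun _ _ => Gf_nonneg _ _ _ _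
  rcases hK₁ K (by omega) (PP a) (PP_abs a ha) y θ with h | ⟨r, hr1, h⟩
  · have h1 : 0 ≤ κ * K := by positivity
    linarith
  · set V : ℕ → ℝ := fun k => |∑ j ∈ range L, PP a (y + k + r * j)| / L with hV
    have hV0 : ∀ k, 0 ≤ V k := fun k => by rw [hV]; positivity
    have hV1 : ∀ k, V k ≤ 1 := by
      intro k
      rw [hV]
      simp only
      rw [div_le_one hL0]
      refine (abs_sum_le_sum_abs _ _).trans ((sum_le_sum fun j _ => PP_abs a ha _).trans (le_of_eq ?_))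
      simp
    have h1 : ∀ k, V k + V (k + 1) ≤ 1 + Gf a r₀ L (y + k) := by
      intro k
      have h2 := two_signs L (fun j => PP a (y + k + r * j)) (fun j => PP a (y + (k + 1) + r * j)) (fun _ => PP_pm a ha _) (fun _ => PP_pm a ha _)
      have h3 : ∑ j ∈ range L, PP a (y + k + r * j) * PP a (y + (k + 1) + r * j) = ∑ j ∈ range L, a (y + k + r * j) := by
        apply sum_congr rfl
        intro j _
        rw [← PP_succ a ha (y + k + r * j)]
        congr 2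
        ring
      rw [h3] at h2
      have h4 : |∑ j ∈ range L, a (y + k + r * j)| / L ≤ Gf a r₀ L (y + k) := by
        unfold Gf
        exact single_le_sum (f := fun r => |∑ j ∈ range L, a (y + k + r * j)| / L) (fun _ _ => by positivity) hr1
      have h5 : V k + V (k + 1) ≤ 1 + |∑ j ∈ range L, a (y + k + r * j)| / L := by
        rw [hV]
        simp only
        rw [← add_div, div_le_iff₀ hL0, add_mul, one_mul, div_mul_cancel₀ _ hL0.ne']
        exact h2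
      linarith
    have h2 : 2 * ∑ k ∈ range (K + r₀), V k ≤ (K + r₀) + 1 + ∑ k ∈ range (K + r₀), Gf a r₀ L (y + k) := by
      have h3 := sum_le_sum fun k (_ : k ∈ range (K + r₀)) => h1 k
      rw [sum_add_distrib, sum_add_distrib, sum_const, card_range, nsmul_eq_mul, mul_one] at h3
      have h4 : ∑ k ∈ range (K + r₀), V (k + 1) + V 0 = ∑ k ∈ range (K + r₀), V k + V (K + r₀) := by
        rw [← sum_range_succ', sum_range_succ]
      have h5 := hV0 (K + r₀)
      have h6 := hV1 0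
      push_cast at h3
      linarith
    have h3 : (r₀ : ℝ) + 1 ≤ κ * K := by
      rw [div_le_iff₀ hκ] at hK₂
      have h4 : (K₂ : ℝ) ≤ K := by exact_mod_cast (by omega : K₂ ≤ K)
      have := mul_le_mul_of_nonneg_right h4 hκ.le
      linarith
    have h4 : (1 / 2 : ℝ) ≤ 2 / Real.pi := by
      rw [div_le_div_iff₀ (by norm_num) hpi]
      linarith
    have h5 := mul_le_mul_of_nonneg_right h4 hK0
    refine h.trans ?_
    change κ / 4 * K + ∑ k ∈ range (K + r₀), V k ≤ _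
    have h6 : 0 ≤ κ * K := by positivity
    linarith

lemma two_pi_le : 2 / Real.pi ≤ 2 / 3 := by
  have := Real.pi_gt_three
  apply div_le_div_of_nonneg_left (by norm_num) (by norm_num) this.le

open Classical in
/-- products of consecutive values in short windows -/
theorem lam_prod (q c : ℕ) (hq : 1 ≤ q) (ε : ℝ) (hε : 0 < ε) :
    ∃ C : ℕ, ∀ H X : ℕ, C ≤ H → C * H ≤ X →
      (((Icc 1 X).filter (fun x => ¬ ∀ v : ℕ → ℂ,
        ∑ k ∈ Icc 1 H, ‖∑ n ∈ Icc 1 H, v n * ((∏ i ∈ range k, lq q c (x + n + i) : ℝ) : ℂ)‖ ^ 2 ≤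
        (4 / Real.pi ^ 2 + ε) * H ^ 2 * ∑ n ∈ Icc 1 H, ‖v n‖ ^ 2)).card : ℝ) ≤ ε * X := by
  set a : ℕ → ℝ := lq q (c + 2 * q) with ha'
  have ha : ∀ n, a n = 1 ∨ a n = -1 := lq_pm q _
  have hMR : MRP a := mrp_lq q _ hq
  obtain ⟨C, hC1, hC⟩ := hankelG_ae (PP a) (PP_abs a ha) (2 / Real.pi) (by have := Real.pi_pos; positivity) two_pi_le
    (sup_PP a ha hMR) (ε / 2) (by positivity)
  refine ⟨C, fun H X hH hX => ?_⟩
  have hX1 : 1 ≤ X := le_trans (Nat.mul_pos hC1 (by omega)) hX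
  have hX1' : (1 : ℝ) ≤ X := by exact_mod_cast hX1
  have h0 := hC H (X + 1) hH (by omega)
  refine le_trans ?_ (h0.trans (by push_cast; nlinarith))
  have h1 : (Icc 1 X).filter (fun x => ¬ ∀ v : ℕ → ℂ,
        ∑ k ∈ Icc 1 H, ‖∑ n ∈ Icc 1 H, v n * ((∏ i ∈ range k, lq q c (x + n + i) : ℝ) : ℂ)‖ ^ 2 ≤
        (4 / Real.pi ^ 2 + ε) * H ^ 2 * ∑ n ∈ Icc 1 H, ‖v n‖ ^ 2) ⊆
      (range (X + 1)).filter (fun x => ¬ ∀ v : ℕ → ℂ, ∑ b ∈ range H, ‖∑ n ∈ range H, v n * PP a (x + n + b)‖ ^ 2 ≤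
        ((2 / Real.pi) ^ 2 + ε / 2) * H ^ 2 * ∑ n ∈ range H, ‖v n‖ ^ 2) := by
    intro x hx
    rw [mem_filter, mem_Icc] at hx
    rw [mem_filter, mem_range]
    refine ⟨by omega, fun hcon => hx.2 fun v => ?_⟩
    have h2 := hcon (fun n => v (n + 1) * PP a (x - 1 + n))
    have h3 : (2 / Real.pi) ^ 2 = 4 / Real.pi ^ 2 := by rw [div_pow]; norm_num
    have h4 : ∑ n ∈ range H, ‖v (n + 1) * (PP a (x - 1 + n) : ℂ)‖ ^ 2 = ∑ n ∈ Icc 1 H, ‖v n‖ ^ 2 := by
      rw [sum_Icc_range]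
      apply sum_congr rfl
      intro n _
      rw [norm_mul, Complex.norm_real, Real.norm_eq_abs]
      rcases PP_pm a ha (x - 1 + n) with h | h <;> rw [h] <;> norm_num
    rw [h3, h4] at h2
    have h5 : (4 / Real.pi ^ 2 + ε / 2) * (H : ℝ) ^ 2 * ∑ n ∈ Icc 1 H, ‖v n‖ ^ 2 ≤ (4 / Real.pi ^ 2 + ε) * (H : ℝ) ^ 2 * ∑ n ∈ Icc 1 H, ‖v n‖ ^ 2 := by
      apply mul_le_mul_of_nonneg_right _ (by positivity)
      apply mul_le_mul_of_nonneg_right _ (by positivity)
      linarith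
    refine le_trans (le_of_eq ?_) (h2.trans h5)
    rw [sum_Icc_range]
    apply sum_congr rfl
    intro k _
    rw [sum_Icc_range]
    congr 2
    apply sum_congr rfl
    intro n _
    have h6 : ∏ i ∈ range (k + 1), lq q c (x + (n + 1) + i) = ∏ i ∈ range (k + 1), a (x - 1 + n + i) := by
      apply prod_congr rfl
      intro i _
      rw [ha']
      unfold lq
      congr 2
      have h7 : x + (n + 1) + i = x - 1 + n + i + 2 := by omega
      rw [h7]
      ring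
    rw [h6, PP_mul a ha (x - 1 + n) (k + 1)]
    have h7 : x - 1 + n + (k + 1) = x + n + k := by omega
    rw [h7]
    push_cast
    ring
  exact_mod_cast card_le_card h1

end Pool.Agent.R509.HL
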